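import Pool.Agent.Helper55_CCC.Cusp

/-!
# Regular covers of cusped hyperbolic manifolds which are homothetic on all cusps

Let `Γ` be a finitely generated subgroup of `GL_{n+1}(ℝ)` (for instance the fundamental group of a
complete hyperbolic `n`-manifold of finite volume, acting on the Lorentz space) and let `P_i` be
finitely many cusp groups with torus cross-section.  For every integer `t` prime to some integer
`D` depending on `Γ` and the `P_i` there is a normal subgroup `N` of `Γ` of finite index with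
`N ∩ P_i = t P_i` for all `i`.

The proof.  The entries of `Γ`, of the logarithms of generators of the `P_i` and of a dual family
generate a ring of finite type.  It has a homomorphism to a number field (Nullstellensatz), hence to
finite rings of characteristic exactly `t` for all `t` prime to some `D`.  The dual family shows that
a translation in `P_i` is trivial in the finite quotient only if its coordinates are divisible
by `t`.
-/

set_option autoImplicit false

namespace Pool.Agent.Results.MP_a64cc9_gt.HomotheticCusps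

open Matrix Pool.Agent.CuspCov

variable {n : ℕ}

theorem result (Γ : Subgroup (GL (Fin (n + 1)) ℝ)) (hΓ : Group.FG Γ) {ι : Type} [Fintype ι]
    (P : ι → Subgroup Γ) (hP : ∀ i, IsTorusCusp Γ (P i)) :
    ∃ D : ℕ, 0 < D ∧ ∀ t : ℕ, 0 < t → Nat.Coprime t D →
      ∃ N : Subgroup Γ, N.Normal ∧ N.FiniteIndex ∧
        ∀ i g, (g ∈ N ∧ g ∈ P i) ↔ ∃ h ∈ P i, g = h ^ t := by
  classical
  choose e w he hw hind h1 h2 using fun i => cusp_data Γ (P i) (hP i)
  have hwa : ∀ i (a : Fin (n - 1) → ℤ), lor (e i) (∑ j, (a j : ℝ) • w i j) = 0 := by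
    intro i a
    rw [lor_sum_right]
    refine Finset.sum_eq_zero fun j _ => ?_
    rw [lor_smul_right, hw, mul_zero]
  have hpow : ∀ i (a : Fin (n - 1) → ℤ) (t : ℕ),
      expo (e i) (∑ j, (a j : ℝ) • w i j) ^ t
        = expo (e i) (∑ j, (((t : ℤ) * a j : ℤ) : ℝ) • w i j) := by
    intro i a t
    rw [expo_pow _ _ (he i) (hwa i a), Finset.smul_sum]
    congr 1
    refine Finset.sum_congr rfl fun j _ => ?_
    rw [smul_smul]; push_cast; rfl
  have hcube : ∀ i (a : Fin (n - 1) → ℤ),
      inf (e i) (∑ j, (a j : ℝ) • w i j) * inf (e i) (∑ j, (a j : ℝ) • w i j)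
        * inf (e i) (∑ j, (a j : ℝ) • w i j) = 0 := fun i a => inf_cube _ _ (he i) (hwa i a)
  obtain ⟨D, hD, hkey⟩ := core hΓ (rep Γ) (fun i j => inf (e i) (w i j)) hind
  refine ⟨D, hD, fun t ht htD => ?_⟩
  obtain ⟨N, hN, hNf, hNP⟩ := hkey t ht htD
  refine ⟨N, hN, hNf, fun i g => ?_⟩
  constructor
  · rintro ⟨hgN, hgP⟩
    obtain ⟨a, ha⟩ := h1 i g hgP
    have h3 := (hNP i g a _ rfl (by rw [← inf_sum]; exact hcube i a)
      (by rw [← inf_sum]; exact ha)).mp hgN
    choose b hb using h3
    obtain ⟨h, hhP, hh⟩ := h2 i b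
    refine ⟨h, hhP, rep_injective Γ ?_⟩
    rw [map_pow, hh, hpow, ha]
    congr 1
    refine Finset.sum_congr rfl fun j _ => ?_
    rw [hb j]
  · rintro ⟨h, hhP, rfl⟩
    refine ⟨?_, (P i).pow_mem hhP t⟩
    obtain ⟨b, hb⟩ := h1 i h hhP
    have h4 : rep Γ (h ^ t) = expo (e i) (∑ j, (((t : ℤ) * b j : ℤ) : ℝ) • w i j) := by
      rw [map_pow, hb, hpow]
    exact (hNP i (h ^ t) (fun j => (t : ℤ) * b j) _ rfl
      (by rw [← inf_sum]; exact hcube i _) (by rw [← inf_sum]; exact h4)).mpr
      fun j => Dvd.intro _ rfl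

end Pool.Agent.Results.MP_a64cc9_gt.HomotheticCusps
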