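import Pool.Agent.Helper24_CCC.Conj

/-!
# Regular covers of cusped hyperbolic manifolds: sublattices whose multiples are all realised

Let `Γ` be a finitely generated subgroup of `GL_{n+1}(ℝ)` whose matrix entries in some basis of
`ℝ^{n+1}` are algebraic numbers integral outside `s` (for instance, for `n ≥ 3` and suitable `s`, the
fundamental group of a complete hyperbolic `n`-manifold of finite volume) and let `P_i` be finitely
many cusp groups with torus cross-section.  There are sublattices `Λ_i` of the `P_i` such that for every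
integer `t` prime to `s` there is a normal subgroup `N` of `Γ` of finite index with
`N ∩ P_i = t Λ_i` for all `i`.

The proof.  `N` is the kernel of the reduction of the ring of entries modulo `t_0 t`, where `t_0` is
an integer prime to `s` divisible by the Gram determinants of the logarithms of generators
of the `P_i` (outside `s`).
-/

set_option autoImplicit false

namespace Pool.Agent.Results.MP_a64cc9_gt.IntegralCusps

open Matrix Pool.Agent.CuspCov

variable {n : ℕ}

/-- `x` is an algebraic integer up to multiplication by a power of `s` -/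
def IntegralOutside (s : ℕ) (x : ℝ) : Prop := ∃ k : ℕ, IsIntegral ℤ ((s : ℝ) ^ k * x)

theorem result (Γ : Subgroup (GL (Fin (n + 1)) ℝ)) (hΓ : Group.FG Γ) {ι : Type} [Fintype ι]
    (P : ι → Subgroup Γ) (hP : ∀ i, IsTorusCusp Γ (P i)) (s : ℕ) (hs : 0 < s)
    (A : GL (Fin (n + 1)) ℝ)
    (hint : ∀ (g : Γ) p q, IntegralOutside s
      (((A * (g : GL (Fin (n + 1)) ℝ) * A⁻¹ : GL (Fin (n + 1)) ℝ) :
        Matrix (Fin (n + 1)) (Fin (n + 1)) ℝ) p q)) :
    ∃ Λ : ι → Subgroup Γ, (∀ i, Λ i ≤ P i ∧ (Λ i).relIndex (P i) ≠ 0) ∧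
      ∀ t : ℕ, 0 < t → Nat.Coprime t s →
        ∃ N : Subgroup Γ, N.Normal ∧ N.FiniteIndex ∧
          ∀ i g, (g ∈ N ∧ g ∈ P i) ↔ ∃ h ∈ Λ i, g = h ^ t := by
  classical
  choose e w he hw hind h1 h2 using fun i => cusp_data Γ (P i) (hP i)
  have hwa : ∀ i (a : Fin (n - 1) → ℤ), lor (e i) (∑ j, (a j : ℝ) • w i j) = 0 := by
    intro i a
    rw [lor_sum_right]
    refine Finset.sum_eq_zero fun j _ => ?_
    rw [lor_smul_right, hw, mul_zero]
  have hpow : ∀ i (a : Fin (n - 1) → ℤ) (t : ℕ),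
      expo (e i) (∑ j, (a j : ℝ) • w i j) ^ t
        = expo (e i) (∑ j, (((t : ℤ) * a j : ℤ) : ℝ) • w i j) := by
    intro i a t
    rw [expo_pow _ _ (he i) (hwa i a), Finset.smul_sum]
    congr 1
    refine Finset.sum_congr rfl fun j _ => ?_
    rw [smul_smul]; push_cast; rfl
  have hcube : ∀ i (a : Fin (n - 1) → ℤ),
      inf (e i) (∑ j, (a j : ℝ) • w i j) * inf (e i) (∑ j, (a j : ℝ) • w i j)
        * inf (e i) (∑ j, (a j : ℝ) • w i j) = 0 := fun i a => inf_cube _ _ (he i) (hwa i a)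
  obtain ⟨L, hL⟩ := coreSConj hΓ (rep Γ) (A : Matrix (Fin (n + 1)) (Fin (n + 1)) ℝ)
    ((A⁻¹ : GL (Fin (n + 1)) ℝ) : Matrix (Fin (n + 1)) (Fin (n + 1)) ℝ) A.mul_inv A.inv_mul
    s hs (fun g p q => hint g p q)
    (fun i j => inf (e i) (w i j)) hind (by
      intro i j
      obtain ⟨g, _, hg⟩ := h2 i (Pi.single j 1)
      refine ⟨g, inf_cube _ _ (he i) (hw i j), ?_⟩
      have h3 : ∑ k, (((Pi.single j 1 : Fin (n - 1) → ℤ) k : ℤ) : ℝ) • w i k = w i j := by
        rw [Finset.sum_eq_single j]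
        · rw [Pi.single_eq_same]; simp
        · intro k _ hk
          rw [Pi.single_eq_of_ne hk]; simp
        · intro h; exact absurd (Finset.mem_univ j) h
      rw [h3] at hg
      exact hg)
  obtain ⟨N1, hN1, hN1f, hN1P⟩ := hL 1 one_pos (Nat.coprime_one_left s)
  refine ⟨fun i => N1 ⊓ P i, ?_, ?_⟩
  · intro i
    refine ⟨inf_le_right, ?_⟩
    rw [Subgroup.inf_relIndex_right]
    have hfi : (N1.subgroupOf (P i)).FiniteIndex := inferInstance
    exact hfi.index_ne_zero
  · intro t ht hts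
    obtain ⟨N, hN, hNf, hNP⟩ := hL t ht hts
    refine ⟨N, hN, hNf, fun i g => ?_⟩
    constructor
    · rintro ⟨hgN, hgP⟩
      obtain ⟨a, ha⟩ := h1 i g hgP
      obtain ⟨b, hbL, hb⟩ := (hNP i g a _ rfl (by rw [← inf_sum]; exact hcube i a)
        (by rw [← inf_sum]; exact ha)).mp hgN
      obtain ⟨h, hhP, hh⟩ := h2 i b
      refine ⟨h, ⟨?_, hhP⟩, rep_injective Γ ?_⟩
      · exact (hN1P i h b _ rfl (by rw [← inf_sum]; exact hcube i b)
          (by rw [← inf_sum]; exact hh)).mpr ⟨b, hbL, fun j => by simp⟩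
      · rw [map_pow, hh, hpow, ha]
        congr 1
        refine Finset.sum_congr rfl fun j _ => ?_
        rw [hb j]
    · rintro ⟨h, ⟨hhN, hhP⟩, rfl⟩
      refine ⟨?_, (P i).pow_mem hhP t⟩
      obtain ⟨b, hb⟩ := h1 i h hhP
      obtain ⟨b', hb'L, hb'⟩ := (hN1P i h b _ rfl (by rw [← inf_sum]; exact hcube i b)
        (by rw [← inf_sum]; exact hb)).mp hhN
      have hbb : b = b' := by
        funext j
        have := hb' j
        simpa using this
      have h4 : rep Γ (h ^ t) = expo (e i) (∑ j, (((t : ℤ) * b j : ℤ) : ℝ) • w i j) := by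
        rw [map_pow, hb, hpow]
      exact (hNP i (h ^ t) (fun j => (t : ℤ) * b j) _ rfl
        (by rw [← inf_sum]; exact hcube i _) (by rw [← inf_sum]; exact h4)).mpr
        ⟨b, hbb ▸ hb'L, fun j => rfl⟩

end Pool.Agent.Results.MP_a64cc9_gt.IntegralCusps
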